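import Pool.Agent.H53.ShockE

/-!
# MP_eb888f_an, Q1: the third-order similarity profile exists and is unique

A profile for (A) is a `C^∞` odd function `g : ℝ → ℝ` with `(g g')'' = z g'/3` everywhere on `ℝ`,
`g → 1` at `-∞` and `g → -1` at `+∞`.
-/

namespace Pool.Agent.Results.MP_eb888f_an.ThirdOrderProfile

open Filter Topology

/-- A profile for equation (A): a smooth odd function solving `(g g')'' = (1/3) z g'` at every
point of `ℝ`, with limits `1` at `-∞` and `-1` at `+∞`. -/
structure IsProfileA (g : ℝ → ℝ) : Prop where
  smooth : ContDiff ℝ (⊤ : ℕ∞) g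
  odd : ∀ z, g (-z) = - g z
  ode : ∀ z, iteratedDeriv 2 (fun x => g x * deriv g x) z = (1 / 3) * z * deriv g z
  lim_bot : Tendsto g atBot (𝓝 1)
  lim_top : Tendsto g atTop (𝓝 (-1))

lemma isProfileA_iff (g : ℝ → ℝ) :
    IsProfileA g ↔ H53Shock.HProf (fun z => - g z) 1 := by
  have hneg : deriv (fun z => - g z) = fun z => - deriv g z := by
    funext z
    exact deriv.fun_neg
  have hprod : (fun x => (- g x) * deriv (fun z => - g z) x) = fun x => g x * deriv g x := by
    funext x
    rw [hneg]
    ring
  constructor
  · intro H
    refine ⟨H.smooth.neg, ?_, ?_, ?_⟩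
    · intro z
      rw [H.odd]
    · intro z
      rw [hprod, hneg]
      have := H.ode z
      rw [iteratedDeriv_succ, iteratedDeriv_one] at this
      rw [this]
      ring
    · simpa using H.lim_top.neg
  · intro H
    have hs : ContDiff ℝ (⊤ : ℕ∞) g := by
      simpa using H.smooth.neg
    have hodd : ∀ z, g (-z) = - g z := by
      intro z
      have := H.odd z
      linarith
    have htop : Tendsto g atTop (𝓝 (-1)) := by
      simpa using H.lim.neg
    refine ⟨hs, hodd, ?_, ?_, htop⟩
    · intro z
      rw [iteratedDeriv_succ, iteratedDeriv_one]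
      have := H.ode z
      rw [hprod, hneg] at this
      rw [this]
      ring
    · have h1 : g = fun z => - g (-z) := by
        funext z
        rw [hodd]
        ring
      rw [h1]
      have h2 := (htop.comp tendsto_neg_atBot_atTop).neg
      simpa using h2

/-- **Q1, affirmative.** Equation (A) with the boundary conditions has exactly one profile. -/
theorem result : ∃! g : ℝ → ℝ, IsProfileA g := by
  obtain ⟨h, hh, huniq⟩ := H53Shock.exists_unique_HProf
  refine ⟨fun z => - h z, ?_, ?_⟩
  · refine (isProfileA_iff _).2 ?_
    simpa using hh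
  · intro g hg
    have := huniq _ ((isProfileA_iff g).1 hg)
    funext z
    have h1 : - g z = h z := congrFun this z
    linarith

end Pool.Agent.Results.MP_eb888f_an.ThirdOrderProfile
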